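import Pool.Agent.AT12.Stmts3

/-! Squad AT12, row CST (helper64): a regular coset, or the structure `Cs`. -/

open scoped BigOperators

noncomputable section

namespace Pool.Agent.PP.T12.H64

open Pool.Agent.Helper51_AWC Pool.Agent.Helper79_WRA Pool.Agent.PP Pool.Agent.PP.KF
open Pool.Agent.PP.K9 Pool.Agent.PP.K9.H97 Pool.Agent.PP.H75 Pool.Agent.PP.T3 Pool.Agent.PP.T2
open Pool.Agent.PP.T8

theorem cst (hC : CpyStmt) : CstStmt := by
  intro ℓ hℓ F _ hF G _ _ e V γ hL hix hexp hcV hgen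
  have hab : ∀ a b : V, a * b = b * a := fun a b => Subtype.ext (hL.ab a a.2 b b.2)
  let _ : CommGroup V := { (inferInstance : Group V) with mul_comm := hab }
  have hTN : Tg V γ ≤ Subgroup.normalizer (V : Set G) := inf_le_left
  let f : Tg V γ →* MulAut V := (V.normalizerMonoidHom).comp (Subgroup.inclusion hTN)
  have hfv : ∀ (t : Tg V γ) (v : V), ((f t v : V) : G) = t * v * (t : G)⁻¹ := fun t v => rfl
  have hker : ∀ t : Tg V γ, f t = 1 ↔ (t : G) ∈ Subgroup.centralizer (V : Set G) := by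
    intro t
    constructor
    · intro h
      rw [Subgroup.mem_centralizer_iff]
      intro v hv
      have h1 : f t ⟨v, hv⟩ = ⟨v, hv⟩ := by rw [h]; rfl
      have h2 := congrArg (fun z : V => (z : G)) h1
      have h3 : (t : G) * v * (t : G)⁻¹ = v := (hfv t ⟨v, hv⟩).symm.trans h2
      calc v * (t : G) = ((t : G) * v * (t : G)⁻¹) * t := by rw [h3]
        _ = t * v := by group
    · intro h
      ext v
      rw [hfv]
      have h1 := (Subgroup.mem_centralizer_iff.1 h) v v.2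
      change (t : G) * v * (t : G)⁻¹ = v
      rw [← h1]
      group
  have hkk : f.ker = (Subgroup.centralizer (V : Set G)).subgroupOf (Tg V γ) := by
    ext t
    rw [MonoidHom.mem_ker, hker, Subgroup.mem_subgroupOf]
  have hcard : Nat.card f.range = ix V γ := by
    rw [← Subgroup.index_ker, hkk]
    rfl
  have hgenV : ∃ x y : V, (⊤ : Subgroup V) = Subgroup.closure {x, y} := by
    obtain ⟨x, z, hxz⟩ := hgen
    have hx : x ∈ V := by
      rw [hxz]; exact Subgroup.subset_closure (Set.mem_insert _ _)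
    have hz : z ∈ V := by
      rw [hxz]; exact Subgroup.subset_closure (Set.mem_insert_of_mem _ rfl)
    refine ⟨⟨x, hx⟩, ⟨z, hz⟩, ?_⟩
    apply Subgroup.map_injective V.subtype_injective
    rw [← MonoidHom.range_eq_map, Subgroup.range_subtype, MonoidHom.map_closure, Set.image_pair]
    exact hxz
  -- conjugation and `f`
  have hfix : ∀ (t : Tg V γ) (v : V), f t v = v ↔ (t : G) * v = v * t := by
    intro t v
    rw [← Subtype.coe_inj, hfv]
    constructor
    · intro h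
      calc (t : G) * v = ((t : G) * v * (t : G)⁻¹) * t := by group
        _ = v * t := by rw [h]
    · intro h
      rw [h]
      group
  rcases hC ℓ V hexp hcV hgenV f.range (by rw [hcard]; exact hix) with
    ⟨y, hy, h⟩ | ⟨y, w, hy, hw, hg, hu, hs, ha, hf, ⟨s₁, hs₁, hs₁n, hs₁y⟩, hd, s₀, hs₀, hs₀y, hc⟩
  · left
    refine ⟨y, y.2, ?_, ?_⟩
    · rw [Subgroup.orderOf_coe]
      exact hy
    · intro t ht v hv htv
      rw [pow_one] at htv
      exact (hker ⟨t, ht⟩).1 (h _ ⟨⟨t, ht⟩, rfl⟩ ⟨v, hv⟩ (Subtype.ext htv))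
  · right
    refine ⟨y, w, (Subgroup.centralizer (V : Set G)).relIndex (Tg V γ ⊓ Cu (y : G)), ?_⟩
    -- the stabiliser of `y`
    have hCy : ∀ t : G, t ∈ Cu (y : G) ↔ t * y = y * t := by
      intro t
      rw [Subgroup.mem_centralizer_singleton_iff]
    have hfp : ∀ (t : Tg V γ) (v : V) (k : ℕ), f t (v ^ k) = v ^ k ↔
        (t : G) * (v : G) ^ k = (v : G) ^ k * t := by
      intro t v k
      rw [hfix]
      simp only [SubmonoidClass.coe_pow]
    let g : (Tg V γ ⊓ Cu (y : G) : Subgroup G) →* MulAut V := f.comp (Subgroup.inclusion inf_le_left)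
    have hgk : g.ker = (Subgroup.centralizer (V : Set G)).subgroupOf (Tg V γ ⊓ Cu (y : G)) := by
      ext t
      rw [MonoidHom.mem_ker, Subgroup.mem_subgroupOf]
      exact hker ⟨t, t.2.1⟩
    have hgr : ∀ s : MulAut V, s ∈ g.range ↔ s ∈ f.range ∧ s y = y := by
      intro s
      constructor
      · rintro ⟨t, rfl⟩
        refine ⟨⟨⟨t, t.2.1⟩, rfl⟩, ?_⟩
        exact (hfix ⟨t, t.2.1⟩ y).2 ((hCy t).1 t.2.2)
      · rintro ⟨⟨t, rfl⟩, h⟩
        exact ⟨⟨t, t.2, (hCy t).2 ((hfix t y).1 h)⟩, rfl⟩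
    have hgc : Nat.card g.range =
        (Subgroup.centralizer (V : Set G)).relIndex (Tg V γ ⊓ Cu (y : G)) := by
      rw [← Subgroup.index_ker, hgk]
      rfl
    have hgc' : Nat.card {s : MulAut V // s ∈ f.range ∧ s y = y} = Nat.card g.range :=
      Nat.card_congr (Equiv.subtypeEquivRight fun s => (hgr s).symm)
    refine ⟨y.2, w.2, hcV, ?_, ?_, ?_, ?_, ?_, ?_, ?_, rfl, ?_, ?_, ?_⟩
    · rw [Subgroup.orderOf_coe]
      exact hy
    · rw [Subgroup.orderOf_coe]
      exact hw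
    · intro v hv
      obtain ⟨i, k, h⟩ := hg ⟨v, hv⟩
      exact ⟨i, k, congrArg Subtype.val h⟩
    · intro i i' k k' h
      exact hu i i' k k' (Subtype.ext h)
    · intro t ht v hv htv
      exact (hfix ⟨t, ht⟩ y).1 (hs _ ⟨⟨t, ht⟩, rfl⟩ ⟨v, hv⟩ (Subtype.ext htv))
    · intro t ht hty
      obtain ⟨μ, hμ⟩ := ha _ ⟨⟨t, ht⟩, rfl⟩ ((hfix ⟨t, ht⟩ y).2 hty)
      exact ⟨μ, congrArg Subtype.val hμ⟩
    · intro t ht hty k hk htk
      exact (hker ⟨t, ht⟩).1 (hf _ ⟨⟨t, ht⟩, rfl⟩ ((hfix ⟨t, ht⟩ y).2 hty) k hk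
        ((hfp ⟨t, ht⟩ w k).2 htk))
    · rw [← hgc]
      have h1 : g.range ≠ ⊥ := by
        intro h
        have h2 : s₁ ∈ g.range := (hgr s₁).2 ⟨hs₁, hs₁y⟩
        rw [h] at h2
        exact hs₁n (Subgroup.mem_bot.1 h2)
      exact (Subgroup.one_lt_card_iff_ne_bot _).2 h1
    · rw [← hgc, ← hgc']
      exact hd
    · obtain ⟨t₀, rfl⟩ := hs₀
      refine ⟨t₀, ⟨t₀.2, (hCy t₀).2 ((hfix t₀ y).1 hs₀y)⟩, ?_⟩
      intro t ht
      obtain ⟨k, hk⟩ := hc _ ⟨⟨t, ht.1⟩, rfl⟩ ((hfix ⟨t, ht.1⟩ y).2 ((hCy t).1 ht.2))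
      refine ⟨k, ?_⟩
      rw [← map_pow, ← map_mul] at hk
      exact (hker _).1 hk

end Pool.Agent.PP.T12.H64
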